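import Pool.Agent.N287.WF.Stm

/-!
Project WF (helper287), part M1b (helper426): the Reeb flow preserves the normalised field `Y` and
the function `a`.
-/

set_option autoImplicit false
set_option linter.unusedSectionVars false

open scoped Topology ContDiff Manifold
open Set Filter Bundle Pool.Agent.Helper186 Pool.Agent.H826R2 Pool.Agent.N287.WF

noncomputable section

namespace Pool.Agent.N426.WF

universe u v w

variable {E : Type u} [NormedAddCommGroup E] [NormedSpace ℝ E] [FiniteDimensional ℝ E]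
  {M : Type v} [TopologicalSpace M] [ChartedSpace E M] [IsManifold 𝓘(ℝ, E) ∞ M]
  {W : Type w} [NormedAddCommGroup W] [InnerProductSpace ℝ W] [FiniteDimensional ℝ W]

/-- derivative of a map with values in `W` along a curve -/
lemma hasDerivAt_DW {V : (x : M) → TangentSpace 𝓘(ℝ, E) x} {c : ℝ → M} {t : ℝ}
    (hc : HasMFDerivAt 𝓘(ℝ, ℝ) 𝓘(ℝ, E) c t ((1 : ℝ →L[ℝ] ℝ).smulRight (V (c t))))
    {f : M → W} (hf : ContMDiff 𝓘(ℝ, E) 𝓘(ℝ, W) ∞ f) :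
    HasDerivAt (fun s => f (c s)) (DW f (c t) (V (c t)) : W) t := by
  have h1 := HasMFDerivAt.comp t (g := f) (f := c)
    (hf.mdifferentiableAt (by simp)).hasMFDerivAt hc
  have h2 : HasFDerivAt (fun s => f (c s)) (show ℝ →L[ℝ] W from
      (mfderiv 𝓘(ℝ, E) 𝓘(ℝ, W) f (c t)).comp ((1 : ℝ →L[ℝ] ℝ).smulRight (V (c t)))) t :=
    hasMFDerivAt_iff_hasFDerivAt.1 h1
  have h3 := h2.hasDerivAt
  refine h3.congr_deriv ?_
  show (mfderiv 𝓘(ℝ, E) 𝓘(ℝ, W) f (c t)) ((1 : ℝ) • V (c t)) = _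
  rw [one_smul]
  rfl

variable {β : (x : M) → TangentSpace 𝓘(ℝ, E) x →L[ℝ] ℝ} {R : (x : M) → TangentSpace 𝓘(ℝ, E) x}
  {f : M → W} {Y : (x : M) → TangentSpace 𝓘(ℝ, E) x} {a : M → W}

lemma dForm_one (x : M) (v : TangentSpace 𝓘(ℝ, E) x) :
    dForm 𝓘(ℝ, E) (fun _ : M => (1 : ℝ)) x v = 0 := by
  have h : mfderiv 𝓘(ℝ, E) 𝓘(ℝ, ℝ) (fun _ : M => (1 : ℝ)) x = 0 := mfderiv_const
  show mfderiv 𝓘(ℝ, E) 𝓘(ℝ, ℝ) (fun _ : M => (1 : ℝ)) x v = 0
  rw [h]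
  rfl

lemma X_one (c : Wein.CD β R) (x : M) : R x = c.X (fun _ => (1 : ℝ)) x := by
  apply c.X_unique
  intro v
  rw [Wein.HB_apply, c.reeb.unit, c.reeb.kernel, dForm_one]
  ring

section

variable [T2Space M] (N : Nrm β R f Y a) {φ : M → ℝ → M} (h0 : ∀ x, φ x 0 = x)
  (hφ : ∀ x, IsMIntegralCurve (I := 𝓘(ℝ, E)) (φ x) R)

/-- the flow of `R` as the flow of a strict contact vector field -/
def rF (c : Wein.CD β R) (h0 : ∀ x, φ x 0 = x)
    (hφ : ∀ x, IsMIntegralCurve (I := 𝓘(ℝ, E)) (φ x) R) : Wein.HF c (fun _ => (1 : ℝ)) where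
  Fl := φ
  zero := h0
  int := fun x => by
    have h : R = c.X (fun _ => (1 : ℝ)) := funext (X_one c)
    rw [← h]
    exact hφ x
  smooth := contMDiff_const
  first := fun x => dForm_one x _

include N hφ h0

lemma f_flow (x : M) (t : ℝ) : f (φ x t) = f x := by
  have hder : ∀ s, HasDerivAt (fun s => f (φ x s)) (0 : W) s := by
    intro s
    refine (hasDerivAt_DW (V := R) (hφ x s) N.smoothf).congr_deriv ?_
    exact (N.ker _ _).2 ⟨1, 0, by rw [one_smul, zero_smul, add_zero]⟩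
  have h1 := is_const_of_deriv_eq_zero (fun s => (hder s).differentiableAt)
    (fun s => (hder s).deriv) t 0
  have h2 : f (φ x t) = f (φ x 0) := h1
  rw [h2, h0]

lemma DW_flow (x : M) (t : ℝ) (u : TangentSpace 𝓘(ℝ, E) x) :
    (DW f (φ x t) (mfderiv 𝓘(ℝ, E) 𝓘(ℝ, E) (fun y => φ y t) x u) : W) = DW f x u := by
  have hs : ContMDiff 𝓘(ℝ, E) 𝓘(ℝ, E) ∞ (fun y => φ y t) := (rF N.cd h0 hφ).smooth_t t
  have h1 : mfderiv 𝓘(ℝ, E) 𝓘(ℝ, W) (f ∘ fun y => φ y t) x =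
      (mfderiv 𝓘(ℝ, E) 𝓘(ℝ, W) f (φ x t)).comp
      (mfderiv 𝓘(ℝ, E) 𝓘(ℝ, E) (fun y => φ y t) x) :=
    mfderiv_comp _ (N.smoothf.mdifferentiableAt (by simp)) (hs.mdifferentiableAt (by simp))
  have h2 : (f ∘ fun y => φ y t) = f := by
    ext1 y
    exact f_flow N h0 hφ y t
  rw [h2] at h1
  exact (DFunLike.congr_fun h1 u).symm

lemma beta_flow (x : M) (t : ℝ) (u : TangentSpace 𝓘(ℝ, E) x) :
    β (φ x t) (mfderiv 𝓘(ℝ, E) 𝓘(ℝ, E) (fun y => φ y t) x u) = β x u :=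
  (rF N.cd h0 hφ).strict t x u

lemma ext_flow (x : M) (t : ℝ) (u v : TangentSpace 𝓘(ℝ, E) x) :
    extDer 𝓘(ℝ, E) β (φ x t) (mfderiv 𝓘(ℝ, E) 𝓘(ℝ, E) (fun y => φ y t) x u)
      (mfderiv 𝓘(ℝ, E) 𝓘(ℝ, E) (fun y => φ y t) x v) = extDer 𝓘(ℝ, E) β x u v := by
  have h1 := ((rF N.cd h0 hφ).cto t).HB_push N.cd.contact.smooth x u v
  have h2 := beta_flow N h0 hφ x t u
  have h3 := beta_flow N h0 hφ x t v
  rw [Wein.HB_apply, Wein.HB_apply] at h1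
  have h4 : β (φ x t) (mfderiv 𝓘(ℝ, E) 𝓘(ℝ, E) (fun y => φ y t) x u) *
      β (φ x t) (mfderiv 𝓘(ℝ, E) 𝓘(ℝ, E) (fun y => φ y t) x v) +
      extDer 𝓘(ℝ, E) β (φ x t) (mfderiv 𝓘(ℝ, E) 𝓘(ℝ, E) (fun y => φ y t) x u)
      (mfderiv 𝓘(ℝ, E) 𝓘(ℝ, E) (fun y => φ y t) x v) =
      β x u * β x v + extDer 𝓘(ℝ, E) β x u v := h1
  rw [h2, h3] at h4
  exact add_left_cancel h4

lemma surj_flow (x : M) (t : ℝ) (w : TangentSpace 𝓘(ℝ, E) (φ x t)) :
    ∃ v : TangentSpace 𝓘(ℝ, E) x, mfderiv 𝓘(ℝ, E) 𝓘(ℝ, E) (fun y => φ y t) x v = w :=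
  ((rF N.cd h0 hφ).cto t).surjD x w

lemma key (x : M) (t : ℝ) :
    mfderiv 𝓘(ℝ, E) 𝓘(ℝ, E) (fun y => φ y t) x (Y x) =
      (inner ℝ (a (φ x t)) (a x) : ℝ) • Y (φ x t) ∧
    (inner ℝ (a (φ x t)) (a x) : ℝ) • a (φ x t) = a x := by
  have h1 : (DW f (φ x t) (mfderiv 𝓘(ℝ, E) 𝓘(ℝ, E) (fun y => φ y t) x (Y x)) : W) = 0 := by
    rw [DW_flow N h0 hφ]
    exact (N.ker _ _).2 ⟨0, 1, by rw [one_smul, zero_smul, zero_add]⟩
  obtain ⟨p, m, hpm⟩ := (N.ker _ _).1 h1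
  have hp : p = 0 := by
    have h2 := beta_flow N h0 hφ x t (Y x)
    rw [hpm, N.kerβ, map_add, map_smul, map_smul, N.cd.reeb.unit, N.kerβ] at h2
    simpa using h2
  rw [hp, zero_smul, zero_add] at hpm
  have h3 : ∀ v : TangentSpace 𝓘(ℝ, E) x,
      m * inner ℝ (a (φ x t)) (DW f x v : W) = inner ℝ (a x) (DW f x v : W) := by
    intro v
    have e1 := ext_flow N h0 hφ x t (Y x) v
    rw [hpm, ← extDerL_apply, map_smul] at e1
    have e2 : m * extDer 𝓘(ℝ, E) β (φ x t) (Y (φ x t))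
        (mfderiv 𝓘(ℝ, E) 𝓘(ℝ, E) (fun y => φ y t) x v) = extDer 𝓘(ℝ, E) β x (Y x) v := e1
    rw [N.theta, N.theta, DW_flow N h0 hφ] at e2
    exact e2
  obtain ⟨u, hu⟩ := N.mem (φ x t)
  obtain ⟨v, rfl⟩ := surj_flow N h0 hφ x t u
  rw [DW_flow N h0 hφ] at hu
  obtain ⟨u', hu'⟩ := N.mem x
  have h4 : m • a (φ x t) - a x = DW f x (m • v - u') := by
    rw [map_sub, map_smul, hu, hu']
  have h5 : inner ℝ (m • a (φ x t) - a x) (m • a (φ x t) - a x) = (0 : ℝ) := by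
    nth_rewrite 2 [h4]
    rw [inner_sub_left, real_inner_smul_left, h3, sub_self]
  have h6 : m • a (φ x t) = a x := sub_eq_zero.1 (inner_self_eq_zero.1 h5)
  have h7 : (inner ℝ (a (φ x t)) (a x) : ℝ) = m := by
    rw [← h6, real_inner_smul_right, real_inner_self_eq_norm_sq, N.unit]
    ring
  rw [h7]
  exact ⟨hpm, h6⟩

lemma cont_flow (x : M) : Continuous (φ x) :=
  continuous_iff_continuousAt.2 fun t => (hφ x t).continuousAt

lemma inner_one (x : M) (t : ℝ) : (inner ℝ (a (φ x t)) (a x) : ℝ) = 1 := by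
  have habs : ∀ s, |(inner ℝ (a (φ x s)) (a x) : ℝ)| = 1 := by
    intro s
    have h1 := congrArg norm (key N h0 hφ x s).2
    rwa [norm_smul, N.unit, N.unit, mul_one, Real.norm_eq_abs] at h1
  have hz : (inner ℝ (a (φ x 0)) (a x) : ℝ) = 1 := by
    rw [h0, real_inner_self_eq_norm_sq, N.unit]
    norm_num
  have hc : Continuous fun s => (inner ℝ (a (φ x s)) (a x) : ℝ) :=
    (N.conta.comp (cont_flow N h0 hφ x)).inner continuous_const
  by_contra hne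
  have h2 : (inner ℝ (a (φ x t)) (a x) : ℝ) = -1 := by
    rcases (abs_eq (by norm_num : (0 : ℝ) ≤ 1)).1 (habs t) with h | h
    · exact absurd h hne
    · exact h
  obtain ⟨s, hs⟩ := mem_range_of_exists_le_of_exists_ge hc (c := 0) ⟨t, by rw [h2]; norm_num⟩
    ⟨0, by rw [hz]; norm_num⟩
  have h3 := habs s
  have hs' : (inner ℝ (a (φ x s)) (a x) : ℝ) = 0 := hs
  rw [hs', abs_zero] at h3
  norm_num at h3

end

/-- **WF/M1b** -/
theorem inv : InvStm.{u, v, w} := by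
  intro E _ _ _ M _ _ _ _ W _ _ _ β R f Y a N φ h0 hφ x t
  obtain ⟨h1, h2⟩ := key N h0 hφ x t
  rw [inner_one N h0 hφ x t, one_smul] at h1 h2
  exact ⟨h1, h2⟩

end Pool.Agent.N426.WF
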